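import Pool.Agent.H75.GS.Targets2

/-!
# Row DGL: a diagonal sequence
-/

set_option autoImplicit false

namespace Pool.Agent.H71.GS

open Filter

/-- Row DGL. -/
theorem pf_DGL : Pool.Agent.H75.GS.T_DGL := by
  classical
  intro N hN
  refine ⟨fun r => Nat.findGreatest (fun j => ∀ i < j, N i r) r, ?_, ?_⟩
  · rw [tendsto_atTop]
    intro b
    have h1 : ∀ᶠ r in atTop, ∀ i ∈ Finset.range b, N i r :=
      (Filter.eventually_all_finset (Finset.range b)).2 fun i _ => hN i
    filter_upwards [h1, eventually_ge_atTop b] with r hr hb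
    exact Nat.le_findGreatest hb fun i hi => hr i (Finset.mem_range.2 hi)
  · intro r
    have h0 : (fun j => ∀ i < j, N i r) 0 := fun i hi => absurd hi (Nat.not_lt_zero i)
    exact Nat.findGreatest_spec (P := fun j => ∀ i < j, N i r) (Nat.zero_le r) h0

end Pool.Agent.H71.GS
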